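import Pool.Agent.Y104.WL.Stm

/-!
# Project WL, job WL-DET: existence of alternating tensors
-/

set_option autoImplicit false

universe u

namespace Pool.Agent.Y455.WL

open Pool.Agent.Y104.WL

section

variable {K : Type*} [Field K] {T β B : Type} [Fintype T] [DecidableEq T] [Fintype β]

open Classical in
/-- The permutations which preserve the blocks. -/
noncomputable def GG (κ : T → B) : Finset (Equiv.Perm T) :=
  Finset.univ.filter fun σ => ∀ x, κ (σ x) = κ x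

/-- The alternating tensor. -/
noncomputable def Th (κ : T → B) (θ : T → β → K) (I : T → β) : K :=
  ∑ σ ∈ GG κ, ((Equiv.Perm.sign σ : ℤ) : K) * ∏ x, θ x (I (σ x))

lemma ap_inv (σ : Equiv.Perm T) (x : T) : σ (σ⁻¹ x) = x := σ.apply_symm_apply x

lemma mem_GG {κ : T → B} {σ : Equiv.Perm T} : σ ∈ GG κ ↔ ∀ x, κ (σ x) = κ x := by
  classical
  simp [GG]

lemma th_alt (κ : T → B) (θ : T → β → K) : AltOn κ (Th κ θ) := by
  intro ρ hρ I
  unfold Th
  rw [Finset.mul_sum]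
  refine Finset.sum_bij (fun σ _ => ρ * σ) ?_ ?_ ?_ ?_
  · intro σ hσ
    rw [mem_GG] at hσ ⊢
    intro x
    rw [Equiv.Perm.mul_apply, hρ, hσ]
  · intro σ _ τ _ h
    exact mul_left_cancel h
  · intro τ hτ
    refine ⟨ρ⁻¹ * τ, ?_, by rw [mul_inv_cancel_left]⟩
    rw [mem_GG] at hτ ⊢
    intro x
    rw [Equiv.Perm.mul_apply, ← hτ x, ← hρ (ρ⁻¹ (τ x)), ap_inv]
  · intro σ _
    have h1 : ((Equiv.Perm.sign ρ : ℤ) : K) * ((Equiv.Perm.sign (ρ * σ) : ℤ) : K) =
        ((Equiv.Perm.sign σ : ℤ) : K) := by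
      rw [Equiv.Perm.sign_mul, ← Int.cast_mul, Units.val_mul, ← mul_assoc, ← Units.val_mul,
        Int.units_mul_self, Units.val_one, one_mul]
    rw [← mul_assoc, h1]
    simp only [Equiv.Perm.mul_apply]

lemma th_val [DecidableEq β] (κ : T → B) (f θ : T → β → K)
    (h : ∀ x y, κ x = κ y → ∑ p, θ x p * f y p = if x = y then 1 else 0) :
    ∑ I : T → β, (∏ x, f x (I x)) * Th κ θ I = 1 := by
  classical
  unfold Th
  simp only [Finset.mul_sum]
  rw [Finset.sum_comm]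
  have key : ∀ σ ∈ GG κ, ∑ I : T → β, (∏ x, f x (I x)) *
      (((Equiv.Perm.sign σ : ℤ) : K) * ∏ x, θ x (I (σ x))) = if σ = 1 then 1 else 0 := by
    intro σ hσ
    rw [mem_GG] at hσ
    have h1 : ∀ I : T → β, (∏ x, f x (I x)) *
        (((Equiv.Perm.sign σ : ℤ) : K) * ∏ x, θ x (I (σ x))) =
        ((Equiv.Perm.sign σ : ℤ) : K) * ∏ y, (θ (σ⁻¹ y) (I y) * f y (I y)) := by
      intro I
      have h2 : ∏ x, θ x (I (σ x)) = ∏ y, θ (σ⁻¹ y) (I y) := by
        rw [← Equiv.prod_comp σ (fun y => θ (σ⁻¹ y) (I y))]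
        simp
      rw [h2, Finset.prod_mul_distrib]
      ring
    simp only [h1]
    rw [← Finset.mul_sum]
    have h3 : ∑ I : T → β, ∏ y, (θ (σ⁻¹ y) (I y) * f y (I y)) =
        ∏ y, ∑ p, θ (σ⁻¹ y) p * f y p := by
      rw [Finset.prod_univ_sum, Fintype.piFinset_univ]
    rw [h3]
    have h4 : ∀ y, ∑ p, θ (σ⁻¹ y) p * f y p = if σ⁻¹ y = y then 1 else 0 := by
      intro y
      apply h
      rw [← hσ (σ⁻¹ y), ap_inv]
    simp only [h4]
    by_cases h5 : σ = 1
    · subst h5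
      simp
    · rw [if_neg h5]
      have h6 : ∃ y, σ⁻¹ y ≠ y := by
        by_contra hcon
        push Not at hcon
        apply h5
        rw [← inv_eq_one]
        ext y
        rw [hcon y]
        rfl
      obtain ⟨y, hy⟩ := h6
      rw [Finset.prod_eq_zero (Finset.mem_univ y) (if_neg hy), mul_zero]
  rw [Finset.sum_congr rfl key, Finset.sum_ite_eq', if_pos]
  rw [mem_GG]
  intro x
  rfl

end

/-- **WL-DET**. -/
theorem det_exists : S_DET.{u} := by
  intro K _ _ T β B _ _ _ _ _ κ f θ h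
  classical
  refine ⟨Th κ θ, th_alt κ θ, ?_, ?_⟩
  · intro I hI x
    unfold Th at hI
    obtain ⟨σ, hσ, h1⟩ := Finset.exists_ne_zero_of_sum_ne_zero hI
    rw [mem_GG] at hσ
    have h2 := right_ne_zero_of_mul h1
    rw [Finset.prod_ne_zero_iff] at h2
    refine ⟨σ⁻¹ x, ?_, ?_⟩
    · rw [← hσ (σ⁻¹ x), ap_inv]
    · have := h2 (σ⁻¹ x) (Finset.mem_univ _)
      rwa [ap_inv] at this
  · unfold evn
    exact th_val κ f θ h

end Pool.Agent.Y455.WL
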